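import Mathlib

namespace Pool.Agent.H.MP_ca8afd_an
open Filter Topology

section gen
variable {X : Type} [TopologicalSpace X] [CompactSpace X]

noncomputable def spanAlg (E : Set C(X, ℂ)) (h1 : (1 : C(X, ℂ)) ∈ E)
    (hm : ∀ x ∈ E, ∀ y ∈ E, x * y ∈ E) : Subalgebra ℂ C(X, ℂ) :=
  (Submodule.span ℂ E).toSubalgebra (Submodule.subset_span h1)
    (fun x y hx hy => by
      induction hx, hy using Submodule.span_induction₂ with
      | mem_mem x y hx hy => exact Submodule.subset_span (hm x hx y hy)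
      | zero_left => simp
      | zero_right => simp
      | add_left x y z _ _ _ h1 h2 => rw [add_mul]; exact Submodule.add_mem _ h1 h2
      | add_right x y z _ _ _ h1 h2 => rw [mul_add]; exact Submodule.add_mem _ h1 h2
      | smul_left r x y _ _ h => rw [smul_mul_assoc]; exact Submodule.smul_mem _ _ h
      | smul_right r x y _ _ h => rw [mul_smul_comm]; exact Submodule.smul_mem _ _ h)

lemma log_near (A : Subalgebra ℂ C(X, ℂ)) (hA : IsClosed (A : Set C(X, ℂ))) (k : C(X, ℂ))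
    (hk : k ∈ A) (h : ‖1 - k‖ < 1) : ∃ g ∈ A, ∀ s, k s = Complex.exp (g s) := by
  rcases isEmpty_or_nonempty X with hX | hX
  · exact ⟨0, A.zero_mem, fun s => hX.elim s⟩
  have hs : Summable fun n : ℕ => (1 / n : ℂ) • (1 - k) ^ n := by
    refine Summable.of_norm_bounded (summable_geometric_of_lt_one (norm_nonneg _) h) fun n => ?_
    rw [norm_smul]
    refine (mul_le_of_le_one_left (norm_nonneg _) ?_).trans (norm_pow_le _ _)
    simpa using Nat.cast_inv_le_one n
  refine ⟨-∑' n : ℕ, (1 / n : ℂ) • (1 - k) ^ n, A.neg_mem ?_, fun s => ?_⟩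
  · exact hA.mem_of_tendsto hs.hasSum (Eventually.of_forall fun F =>
      A.sum_mem fun n _ => A.smul_mem (A.pow_mem (A.sub_mem A.one_mem hk) n) _)
  · have h1 : ‖1 - k s‖ < 1 := ((1 - k).norm_coe_le_norm s).trans_lt h
    have h2 := hs.hasSum.mapL (ContinuousMap.evalCLM ℂ s)
    have h3 := Complex.hasSum_taylorSeries_neg_log h1
    have h4 : (∑' n : ℕ, (1 / n : ℂ) • (1 - k) ^ n) s = -Complex.log (1 - (1 - k s)) := by
      refine h2.unique (h3.congr_fun fun n => ?_)
      simp [div_eq_inv_mul]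
    rw [ContinuousMap.neg_apply, h4, neg_neg, sub_sub_cancel, Complex.exp_log]
    intro h0
    simp [h0] at h1

lemma homot (A : Subalgebra ℂ C(X, ℂ)) (hA : IsClosed (A : Set C(X, ℂ)))
    (d : C(unitInterval × X, X)) (hd : ∀ t, ∀ f ∈ A, (f.comp d).curry t ∈ A)
    (f : C(X, ℂ)) (hf : f ∈ A) (h : C(X, ℂ)) (hh : h ∈ A) (e : f * h = 1)
    (h0 : ∃ g ∈ A, ∀ s, f (d (0, s)) = Complex.exp (g s)) :
    ∃ g ∈ A, ∀ s, f (d (1, s)) = Complex.exp (g s) := by
  let F := (f.comp d).curry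
  let H := (h.comp d).curry
  have FH : ∀ t, F t * H t = 1 := fun t => by
    ext s; exact DFunLike.congr_fun e (d (t, s))
  let G : unitInterval → Prop := fun t => ∃ g ∈ A, ∀ s, F t s = Complex.exp (g s)
  have st : ∀ x y, ‖1 - F y * H x‖ < 1 → G x → G y := by
    rintro x y hxy ⟨g, hg, eg⟩
    obtain ⟨k, hk, ek⟩ := log_near A hA _ (A.mul_mem (hd y f hf) (hd x h hh)) hxy
    refine ⟨g + k, A.add_mem hg hk, fun s => ?_⟩
    rw [ContinuousMap.add_apply, Complex.exp_add, ← eg, ← ek]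
    have := DFunLike.congr_fun (FH x) s
    simp only [ContinuousMap.mul_apply, ContinuousMap.one_apply] at this ⊢
    linear_combination (-F y s) * this
  exact PreconnectedSpace.induction₂' (fun x y => G x → G y) (fun x => by
    have c1 : Continuous fun y => ‖1 - F y * H x‖ := by fun_prop
    have c2 : Continuous fun y => ‖1 - F x * H y‖ := by fun_prop
    have e1 := (c1.tendsto x).eventually_lt_const (u := 1) (by simp [FH])
    have e2 := (c2.tendsto x).eventually_lt_const (u := 1) (by simp [FH])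
    filter_upwards [e1, e2] with y h1 h2
    exact ⟨st x y h1, st y x h2⟩) ⟨fun _ _ _ h1 h2 h => h2 (h1 h)⟩ 0 1 h0

end gen

def S : Set (ℂ × ℂ) := {p | ‖p.1‖ ≤ 1 ∧ ‖p.2‖ ≤ 1 ∧ (p.1 = 0 ∨ ‖p.2‖ = 1)}

instance : CompactSpace S := by
  refine isCompact_iff_compactSpace.1 ((isCompact_closedBall (0 : ℂ × ℂ) 1).of_isClosed_subset
    ?_ fun p hp => ?_)
  · exact (isClosed_le continuous_fst.norm continuous_const).inter
      ((isClosed_le continuous_snd.norm continuous_const).inter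
        ((isClosed_eq continuous_fst continuous_const).union
          (isClosed_eq continuous_snd.norm continuous_const)))
  · rw [mem_closedBall_zero_iff, Prod.norm_def]
    exact max_le hp.1 hp.2.1

noncomputable def z : C(S, ℂ) := ⟨fun s => s.1.1, by fun_prop⟩
noncomputable def w : C(S, ℂ) := ⟨fun s => s.1.2, by fun_prop⟩

@[simp] lemma z_apply (s : S) : z s = s.1.1 := rfl
@[simp] lemma w_apply (s : S) : w s = s.1.2 := rfl

def E : Set C(S, ℂ) := {f | (∃ n, f = w ^ n) ∨ ∃ m c d, f = z ^ (m + 1) * w ^ c * star w ^ d}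

noncomputable def A0 : Subalgebra ℂ C(S, ℂ) := spanAlg E (Or.inl ⟨0, by simp⟩) (by
  rintro _ (⟨n, rfl⟩ | ⟨m, c, d, rfl⟩) _ (⟨n', rfl⟩ | ⟨m', c', d', rfl⟩)
  · exact Or.inl ⟨n + n', by ring⟩
  · exact Or.inr ⟨m', n + c', d', by ring⟩
  · exact Or.inr ⟨m, c + n', d, by ring⟩
  · exact Or.inr ⟨m + m' + 1, c + c', d + d', by ring⟩)

noncomputable def A : Subalgebra ℂ C(S, ℂ) := A0.topologicalClosure

lemma A_closed : IsClosed (A : Set C(S, ℂ)) := A0.isClosed_topologicalClosure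

lemma E_A {f : C(S, ℂ)} (h : f ∈ E) : f ∈ A :=
  A0.le_topologicalClosure (Submodule.subset_span h)

lemma w_mem : w ∈ A := E_A (Or.inl ⟨1, by simp⟩)
lemma mon_mem (m c d : ℕ) : z ^ (m + 1) * w ^ c * star w ^ d ∈ A := E_A (Or.inr ⟨m, c, d, rfl⟩)
lemma y_mem (d : ℕ) : z * star w ^ d ∈ A := by simpa using mon_mem 0 0 d

lemma A_le (W : Submodule ℂ C(S, ℂ)) (hW : IsClosed (W : Set C(S, ℂ)))
    (h : ∀ f ∈ E, f ∈ W) : ∀ f ∈ A, f ∈ W := fun _ hf =>
  closure_minimal (s := (A0 : Set C(S, ℂ)))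
    (Submodule.span_le.2 h : Submodule.span ℂ _ ≤ W) hW hf

lemma nA (x : A) : ‖x‖ = ‖(x : C(S, ℂ))‖ := rfl

lemma chars (φ : A →ₐ[ℂ] ℂ) (hφ : Continuous φ) : ∃! s : S, ∀ f : A, φ f = (f : C(S, ℂ)) s := by
  have : CompleteSpace A := A_closed.completeSpace_coe
  have bd : ∀ x : A, (∀ s, ‖(x : C(S, ℂ)) s‖ ≤ 1) → ‖φ x‖ ≤ 1 := by
    intro x hx
    have h1 := AlgHom.norm_apply_le_self_mul_norm_one φ x
    have a1 : ‖x‖ ≤ 1 := by rw [nA, ContinuousMap.norm_le _ zero_le_one]; exact hx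
    have a2 : ‖(1 : A)‖ ≤ 1 := by
      rw [nA, OneMemClass.coe_one, ContinuousMap.norm_le _ zero_le_one]
      simp
    exact h1.trans (mul_le_one₀ a1 (norm_nonneg _) a2)
  let W : A := ⟨w, w_mem⟩
  let Y : ℕ → A := fun d => ⟨z * star w ^ d, y_mem d⟩
  have hW : ‖φ W‖ ≤ 1 := bd W fun s => s.2.2.1
  have hY : ∀ d, ‖φ (Y d)‖ ≤ 1 := fun d => bd _ fun s => by
    simp only [Y, ContinuousMap.mul_apply, ContinuousMap.pow_apply, ContinuousMap.star_apply,
      norm_mul, norm_pow, norm_star]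
    exact mul_le_one₀ s.2.1 (by positivity) (pow_le_one₀ (norm_nonneg _) s.2.2.1)
  have rel : ∀ d, φ (Y d) = φ W * φ (Y (d + 1)) := fun d => by
    rw [← map_mul]; congr 1; ext s
    simp only [Y, W, MulMemClass.coe_mul, ContinuousMap.mul_apply, ContinuousMap.pow_apply,
      ContinuousMap.star_apply, z_apply, w_apply, RCLike.star_def]
    rcases s.2.2.2 with h | h
    · simp [h]
    · have := Complex.mul_conj' s.1.2
      rw [h, Complex.ofReal_one] at this
      linear_combination (-s.1.1 * (starRingEnd ℂ) s.1.2 ^ d) * this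
  have key : (φ (Y 0) = 0 ∨ ‖φ W‖ = 1) ∧ ∀ d, φ (Y d) = φ (Y 0) * star (φ W) ^ d := by
    rcases hW.eq_or_lt with h | h
    · refine ⟨Or.inr h, fun d => ?_⟩
      induction d with
      | zero => simp
      | succ d ih =>
        have := Complex.mul_conj' (φ W)
        rw [h, Complex.ofReal_one] at this
        rw [pow_succ, ← mul_assoc, ← ih, rel d, RCLike.star_def]
        linear_combination (-φ (Y (d + 1))) * this
    · have h0 : ∀ d, φ (Y d) = 0 := by
        intro d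
        have : ∀ j d, ‖φ (Y d)‖ ≤ ‖φ W‖ ^ j := by
          intro j
          induction j with
          | zero => simpa using hY
          | succ j ih => intro d; rw [rel, norm_mul, pow_succ']; gcongr; exact ih _
        exact norm_le_zero_iff.1 (ge_of_tendsto'
          (tendsto_pow_atTop_nhds_zero_of_lt_one (norm_nonneg _) h) fun j => this j d)
      exact ⟨Or.inl (h0 0), fun d => by simp [h0]⟩
  let s : S := ⟨(φ (Y 0), φ W), hY 0, hW, key.1⟩
  refine ⟨s, ?_, ?_⟩
  · let V : Submodule ℂ A := LinearMap.ker (φ.toLinearMap -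
      (ContinuousMap.evalAlgHom ℂ ℂ s).toLinearMap.comp A.val.toLinearMap)
    have hV : ∀ f : A, f ∈ V ↔ φ f = (f : C(S, ℂ)) s := fun f => by
      simp [V, sub_eq_zero]
    have hc : IsClosed (V : Set A) := by
      have : (V : Set A) = {f | φ f = (f : C(S, ℂ)) s} := Set.ext hV
      rw [this]
      exact isClosed_eq hφ (by fun_prop)
    intro f
    have := A_le (V.map A.val.toLinearMap)
      (A_closed.isClosedEmbedding_subtypeVal.isClosedMap _ hc) (by
        rintro _ (⟨n, rfl⟩ | ⟨m, c, d, rfl⟩)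
        · exact ⟨W ^ n, (hV _).2 (by rw [map_pow]; simp [s, W]), rfl⟩
        · refine ⟨Y 0 ^ m * W ^ c * Y d, (hV _).2 ?_, ?_⟩
          · rw [map_mul, map_mul, map_pow, map_pow, key.2 d]
            simp [s, W, Y]
          · simp [W, Y]; ring) f f.2
    obtain ⟨g, hg, e⟩ := this
    obtain rfl : g = f := Subtype.ext e
    exact (hV _).1 hg
  · intro t ht
    refine Subtype.ext (Prod.ext ?_ ?_)
    · exact ((ht (Y 0)).trans (by simp [Y])).symm
    · exact (ht W).symm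

lemma tle (t : unitInterval) {a : ℂ} (h : ‖a‖ ≤ 1) : ‖((t : ℝ) : ℂ) * a‖ ≤ 1 := by
  rw [norm_mul, Complex.norm_real, Real.norm_of_nonneg t.2.1]
  exact mul_le_one₀ t.2.2 (norm_nonneg _) h

noncomputable def d1 : C(unitInterval × S, S) :=
  ⟨fun p => ⟨(0, (p.1 : ℝ) * p.2.1.2), by simp, tle _ p.2.2.2.1, Or.inl rfl⟩, by fun_prop⟩

noncomputable def d2 : C(unitInterval × S, S) :=
  ⟨fun p => ⟨((p.1 : ℝ) * p.2.1.1, p.2.1.2), tle _ p.2.2.1, p.2.2.2.1,
    p.2.2.2.2.imp_left fun h => by simp [h]⟩, by fun_prop⟩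

lemma comp_mem (d : C(S, S)) (h : ∀ f ∈ E, ∃ c : ℂ, f.comp d = c • f) :
    ∀ f ∈ A, f.comp d ∈ A := by
  refine A_le (A.toSubmodule.comap (ContinuousMap.compRightAlgHom ℂ ℂ d).toLinearMap)
    (A_closed.preimage (ContinuousMap.continuous_precomp d)) fun f hf => ?_
  obtain ⟨c, hc⟩ := h f hf
  show f.comp d ∈ A
  rw [hc]
  exact A.smul_mem (E_A hf) _

lemma exps (f : C(S, ℂ)) (hf : f ∈ A) (h : C(S, ℂ)) (hh : h ∈ A) (e : f * h = 1) :
    ∃ g ∈ A, ∀ s, f s = Complex.exp (g s) := by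
  let o : S := ⟨0, by simp, by simp, Or.inl rfl⟩
  have f0 : f o ≠ 0 := left_ne_zero_of_mul_eq_one (DFunLike.congr_fun e o)
  have k1 := homot A A_closed d1 (fun t => comp_mem (d1.curry t) (by
    rintro _ (⟨n, rfl⟩ | ⟨m, c, d, rfl⟩)
    · exact ⟨((t : ℝ) : ℂ) ^ n, by ext s; simp [d1, mul_pow]⟩
    · exact ⟨0, by ext s; simp [d1]⟩)) f hf h hh e
    ⟨algebraMap ℂ _ (Complex.log (f o)), A.algebraMap_mem _, fun s => by
      have : d1 (0, s) = o := by ext <;> simp [d1, o]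
      simp [this, Complex.exp_log f0]⟩
  obtain ⟨g, hg, eg⟩ := homot A A_closed d2 (fun t => comp_mem (d2.curry t) (by
    rintro _ (⟨n, rfl⟩ | ⟨m, c, d, rfl⟩)
    · exact ⟨1, by ext s; simp [d2]⟩
    · exact ⟨((t : ℝ) : ℂ) ^ (m + 1), by ext s; simp [d2, mul_pow]; ring⟩)) f hf h hh e (by
      have : ∀ s, d2 (0, s) = d1 (1, s) := fun s => by ext <;> simp [d1, d2]
      simpa only [this] using k1)
  refine ⟨g, hg, fun s => ?_⟩
  have : d2 (1, s) = s := by ext <;> simp [d2]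
  rw [← eg, this]

end Pool.Agent.H.MP_ca8afd_an
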