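import Mathlib
import Pool.Agent.H.MP_ca8afd_an.A

namespace Pool.Agent.H.MP_ca8afd_an
open Filter Topology MeasureTheory AddCircle

abbrev T := UnitAddCircle
noncomputable abbrev μ : Measure T := haarAddCircle

lemma nf (n : ℤ) (x : T) : ‖fourier n x‖ = 1 := by simp [fourier_apply]

noncomputable def ι : C(T × T, S) :=
  ⟨fun p => ⟨(fourier 1 p.1, fourier 1 p.2), (nf _ _).le, (nf _ _).le, Or.inr (nf _ _)⟩,
    by fun_prop⟩

noncomputable def σ : Measure S := (μ.prod μ).map ι

instance : IsProbabilityMeasure σ :=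
  Measure.isProbabilityMeasure_map ι.continuous.measurable.aemeasurable

lemma cint {E : Type*} [NormedAddCommGroup E] {u : S → E} (h : Continuous u) : Integrable u σ :=
  h.integrable_of_hasCompactSupport (HasCompactSupport.of_compactSpace _)

lemma ae_one : ∀ᵐ (s : S) ∂σ, s.1.1 * star s.1.1 = 1 ∧ s.1.2 * star s.1.2 = 1 := by
  refine (ae_map_iff ι.continuous.measurable.aemeasurable ?_).2 (Eventually.of_forall fun p => ?_)
  · exact ((isClosed_eq (by fun_prop) continuous_const).inter
      (isClosed_eq (f := fun s : S => s.1.2 * star s.1.2) (by fun_prop)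
        continuous_const)).measurableSet
  · simp only [ι, ContinuousMap.coe_mk, RCLike.star_def, Complex.mul_conj', nf]
    simp

lemma four_pow (n : ℕ) (x : T) : fourier 1 x ^ n = fourier n x := by
  induction n with
  | zero => simp
  | succ n ih => rw [pow_succ, ih, ← fourier_add]; congr 2

lemma int_four (n : ℕ) : ∫ x, fourier 1 x ^ n ∂μ = if n = 0 then 1 else 0 := by
  have := congrFun (fourierCoeff_fourier (T := 1) n) 0
  rw [fourierCoeff, Pi.single_apply] at this
  simp only [four_pow]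
  simpa [eq_comm] using this

def o : S := ⟨0, by simp, by simp, Or.inl rfl⟩

lemma int_A : ∀ f ∈ A, ∫ s, f s ∂σ = f o := by
  let W : Submodule ℂ C(S, ℂ) :=
    { carrier := {f | ∫ s, f s ∂σ = f o}
      zero_mem' := by simp
      add_mem' := fun {f g} hf hg => by
        simp only [Set.mem_ofPred_eq, ContinuousMap.add_apply] at hf hg ⊢
        rw [integral_add (cint f.continuous) (cint g.continuous), hf, hg]
      smul_mem' := fun c f hf => by
        simp only [Set.mem_ofPred_eq, ContinuousMap.smul_apply] at hf ⊢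
        rw [integral_smul, hf] }
  refine A_le W (isClosed_eq ?_ (by fun_prop)) ?_
  · refine (continuous_integral.comp (ContinuousMap.toLp 1 σ ℂ).continuous).congr fun f => ?_
    exact integral_congr_ae (ContinuousMap.coeFn_toLp σ f)
  · intro f hf
    show ∫ s, f s ∂σ = f o
    rw [σ, integral_map ι.continuous.measurable.aemeasurable f.continuous.aestronglyMeasurable]
    rcases hf with ⟨n, rfl⟩ | ⟨m, c, d, rfl⟩
    · have := integral_prod_mul (μ := μ) (ν := μ) (fun _ => (1 : ℂ)) fun y => fourier 1 y ^ n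
      rw [int_four] at this
      simpa [ι, o, zero_pow_eq] using this
    · have := integral_prod_mul (μ := μ) (ν := μ) (fun x => fourier 1 x ^ (m + 1))
        fun y => fourier 1 y ^ c * star (fourier 1 y) ^ d
      rw [int_four] at this
      simpa [ι, o, mul_assoc] using this

noncomputable def D : Submodule ℂ C(S, ℂ) where
  carrier := {F | ∃ f ∈ A, ∃ g ∈ A, F =ᵐ[σ] fun s => f s + star (g s)}
  zero_mem' := ⟨0, A.zero_mem, 0, A.zero_mem, Eventually.of_forall fun s => by simp⟩
  add_mem' := by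
    rintro F G ⟨f, hf, g, hg, h⟩ ⟨f', hf', g', hg', h'⟩
    refine ⟨f + f', A.add_mem hf hf', g + g', A.add_mem hg hg', ?_⟩
    filter_upwards [h, h'] with s h h'
    simp [h, h']; ring
  smul_mem' := by
    rintro c F ⟨f, hf, g, hg, h⟩
    refine ⟨c • f, A.smul_mem hf _, star c • g, A.smul_mem hg _, ?_⟩
    filter_upwards [h] with s h
    simp [h]; ring

lemma D_star {F : C(S, ℂ)} (h : F ∈ D) : star F ∈ D := by
  obtain ⟨f, hf, g, hg, h⟩ := h
  refine ⟨g, hg, f, hf, ?_⟩
  filter_upwards [h] with s h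
  simp [h]; ring

def M : Set C(S, ℂ) := {f | ∃ a b c d, f = z ^ a * star z ^ b * w ^ c * star w ^ d}

lemma M_D : ∀ f ∈ M, f ∈ D := by
  have k1 : ∀ k b c d, z ^ (b + (k + 1)) * star z ^ b * w ^ c * star w ^ d ∈ D := by
    intro k b c d
    refine ⟨_, mon_mem k c d, 0, A.zero_mem, ?_⟩
    filter_upwards [ae_one] with s h
    simp only [ContinuousMap.mul_apply, ContinuousMap.pow_apply, ContinuousMap.star_apply,
      z_apply, w_apply, ContinuousMap.zero_apply, star_zero, add_zero]
    rw [pow_add, mul_right_comm (s.1.1 ^ b), ← mul_pow, h.1, one_pow, one_mul]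
  have k2 : ∀ k b d, z ^ b * star z ^ b * w ^ (d + k) * star w ^ d ∈ D := by
    intro k b d
    refine ⟨_, A.pow_mem w_mem k, 0, A.zero_mem, ?_⟩
    filter_upwards [ae_one] with s h
    simp only [ContinuousMap.mul_apply, ContinuousMap.pow_apply, ContinuousMap.star_apply,
      z_apply, w_apply, ContinuousMap.zero_apply, star_zero, add_zero]
    rw [← mul_pow, h.1, one_pow, one_mul, pow_add, mul_right_comm, ← mul_pow, h.2, one_pow,
      one_mul]
  have st : ∀ a b c d, z ^ a * star z ^ b * w ^ c * star w ^ d ∈ D →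
      z ^ b * star z ^ a * w ^ d * star w ^ c ∈ D := by
    intro a b c d h
    convert D_star h using 1
    simp only [star_mul, star_pow, star_star]; ring
  rintro _ ⟨a, b, c, d, rfl⟩
  rcases lt_trichotomy a b with h | rfl | h
  · obtain ⟨k, rfl⟩ := Nat.exists_eq_add_of_lt h
    exact st _ _ _ _ (k1 k a d c)
  · rcases le_total c d with h | h
    · obtain ⟨k, rfl⟩ := Nat.exists_eq_add_of_le h
      exact st _ _ _ _ (k2 k a c)
    · obtain ⟨k, rfl⟩ := Nat.exists_eq_add_of_le h
      exact k2 k a d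
  · obtain ⟨k, rfl⟩ := Nat.exists_eq_add_of_lt h
    exact k1 k b c d

lemma D_dense : Dense (D : Set C(S, ℂ)) := by
  let P : StarSubalgebra ℂ C(S, ℂ) :=
    { spanAlg M ⟨0, 0, 0, 0, by simp⟩ (by
        rintro _ ⟨a, b, c, d, rfl⟩ _ ⟨a', b', c', d', rfl⟩
        exact ⟨a + a', b + b', c + c', d + d', by ring⟩) with
      star_mem' := fun {x} hx => by
        change x ∈ Submodule.span ℂ M at hx
        change star x ∈ Submodule.span ℂ M
        induction hx using Submodule.span_induction with
        | mem x hx =>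
          obtain ⟨a, b, c, d, rfl⟩ := hx
          exact Submodule.subset_span ⟨b, a, d, c, by
            simp only [star_mul, star_pow, star_star]; ring⟩
        | zero => simp
        | add x y _ _ hx hy => rw [star_add]; exact Submodule.add_mem _ hx hy
        | smul c x _ hx => rw [star_smul]; exact Submodule.smul_mem _ _ hx }
  have h := ContinuousMap.starSubalgebra_topologicalClosure_eq_top_of_separatesPoints P (by
    intro s t hst
    by_cases h : s.1.1 = t.1.1
    · exact ⟨_, ⟨w, Submodule.subset_span ⟨0, 0, 1, 0, by simp⟩, rfl⟩,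
        fun h' => hst (Subtype.ext (Prod.ext h h'))⟩
    · exact ⟨_, ⟨z, Submodule.subset_span ⟨1, 0, 0, 0, by simp⟩, rfl⟩, h⟩)
  intro F
  have : F ∈ P.topologicalClosure := by rw [h]; trivial
  exact closure_mono (Submodule.span_le.2 M_D : Submodule.span ℂ M ≤ D) this

@[reducible] noncomputable def τ : TopologicalSpace (Lp ℂ ⊤ σ) :=
  ⨅ g : Lp ℂ 1 σ, TopologicalSpace.induced (fun u : Lp ℂ ⊤ σ => ∫ s, u s * g s ∂σ) inferInstance

lemma bdd (u : Lp ℂ ⊤ σ) : ∃ M : ℝ, 0 < M ∧ ∀ᵐ s ∂σ, ‖u s‖ ≤ M := by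
  refine ⟨(eLpNormEssSup u σ).toReal + 1, by positivity, ?_⟩
  filter_upwards [ae_le_eLpNormEssSup (f := u) (μ := σ)] with s hs
  have h : eLpNormEssSup u σ ≠ ⊤ := by
    rw [← eLpNorm_exponent_top]; exact Lp.eLpNorm_ne_top u
  have := ENNReal.toReal_mono h hs
  rw [toReal_enorm] at this
  linarith

theorem H2 : @Dense _ τ {u | ∃ f ∈ A, ∃ g ∈ A, u =ᵐ[σ] fun s => f s + star (g s)} := by
  intro u
  obtain ⟨M, M0, hM⟩ := bdd u
  have h1 : MemLp u 1 σ := (Lp.memLp u).mono_exponent le_top
  obtain ⟨x, hx, hl⟩ := mem_closure_iff_seq_limit.1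
    (ContinuousMap.toLp_denseRange ℂ σ ℂ (p := 1) (by simp) (h1.toLp u))
  choose F hF using hx
  obtain ⟨ns, -, hae⟩ := (tendstoInMeasure_of_tendsto_Lp hl).exists_seq_tendsto_ae
  let r : C(ℂ, ℂ) := ⟨fun ζ => (M / max M ‖ζ‖) • ζ, by
    refine Continuous.smul (continuous_const.div (continuous_const.max continuous_norm) fun ζ => ?_) continuous_id
    exact (M0.trans_le (le_max_left _ _)).ne'⟩
  have r1 : ∀ ζ, ‖r ζ‖ ≤ M := fun ζ => by
    have := M0.trans_le (le_max_left M ‖ζ‖)
    simp only [r, ContinuousMap.coe_mk, norm_smul]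
    rw [Real.norm_of_nonneg (by positivity), div_mul_eq_mul_div, div_le_iff₀ this]
    gcongr; exact le_max_right _ _
  have r2 : ∀ ζ, ‖ζ‖ ≤ M → r ζ = ζ := fun ζ h => by simp [r, max_eq_left h, M0.ne']
  have hd : ∀ k : ℕ, ∃ d ∈ D, dist (r.comp (F (ns k))) d < 1 / ((k : ℝ) + 1) := fun k =>
    Metric.mem_closure_iff.1 (D_dense _) _ (by positivity)
  choose d hd1 hd2 using hd
  have e1 : ∀ k s, ‖d k s - r (F (ns k) s)‖ ≤ 1 / ((k : ℝ) + 1) := fun k s => by
    rw [← dist_eq_norm']
    exact (ContinuousMap.dist_apply_le_dist s).trans (hd2 k).le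
  have e2 : ∀ᵐ s ∂σ, Tendsto (fun k => d k s) atTop (𝓝 (u s)) := by
    have : ∀ᵐ s ∂σ, ∀ k, x k s = F k s :=
      ae_all_iff.2 fun k => hF k ▸ ContinuousMap.coeFn_toLp σ (F k)
    filter_upwards [hae, this, h1.coeFn_toLp, hM] with s a1 a2 a3 a4
    simp only [a2, a3] at a1
    have a5 := (r.continuous.tendsto _).comp a1
    rw [r2 _ a4] at a5
    refine a5.congr_dist (squeeze_zero (fun _ => dist_nonneg) (fun k => ?_)
      tendsto_one_div_add_atTop_nhds_zero_nat)
    rw [dist_eq_norm']; exact e1 k s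
  refine @mem_closure_of_tendsto _ τ _ _ _ (fun k => ContinuousMap.toLp ⊤ σ ℂ (d k)) atTop _ ?_
    (Eventually.of_forall fun k => ?_)
  · rw [nhds_iInf, tendsto_iInf]
    intro g
    rw [nhds_induced, tendsto_comap_iff]
    have := tendsto_integral_of_dominated_convergence (F := fun k s => d k s * g s)
      (f := fun s => u s * g s) (fun s => (M + 1) * ‖g s‖)
      (fun k => (d k).continuous.aestronglyMeasurable.mul (Lp.aestronglyMeasurable g))
      ((L1.integrable_coeFn g).norm.const_mul _)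
      (fun k => Eventually.of_forall fun s => by
        rw [norm_mul]
        gcongr
        have := norm_sub_norm_le (d k s) (r (F (ns k) s))
        have : 1 / ((k : ℝ) + 1) ≤ 1 := by
          rw [div_le_one (by positivity)]; linarith [(Nat.cast_nonneg k : (0 : ℝ) ≤ k)]
        linarith [e1 k s, r1 (F (ns k) s)])
      (by filter_upwards [e2] with s hs using hs.mul_const _)
    refine this.congr fun k => integral_congr_ae ?_
    filter_upwards [ContinuousMap.coeFn_toLp (p := ⊤) (𝕜 := ℂ) σ (d k)] with s hs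
    rw [hs]
  · obtain ⟨f, hf, g, hg, h⟩ := hd1 k
    exact ⟨f, hf, g, hg, (ContinuousMap.coeFn_toLp σ (d k)).trans h⟩

end Pool.Agent.H.MP_ca8afd_an
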