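import Mathlib
import Pool.Agent.H.MP_ca8afd_an.B

namespace Pool.Agent.H.MP_ca8afd_an
open Filter Topology MeasureTheory AddCircle

noncomputable def As : Set (Lp ℂ ⊤ σ) := @closure _ τ {u | ∃ f ∈ A, u =ᵐ[σ] f}

lemma cl (K : Set (Lp ℂ ⊤ σ)) (g1 g2 : Lp ℂ 1 σ) (c : ℂ)
    (h : ∀ u ∈ K, ∫ s, u s * g1 s ∂σ = c * ∫ s, u s * g2 s ∂σ) :
    ∀ u ∈ @closure _ τ K, ∫ s, u s * g1 s ∂σ = c * ∫ s, u s * g2 s ∂σ := by
  have pc : ∀ g : Lp ℂ 1 σ, Continuous[τ, inferInstance]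
      fun u : Lp ℂ ⊤ σ => ∫ s, u s * g s ∂σ := fun g =>
    continuous_iInf_dom (i := g) continuous_induced_dom
  let _ := τ
  exact fun u hu => closure_minimal (t := {u : Lp ℂ ⊤ σ | ∫ s, u s * g1 s ∂σ = _}) h
    (isClosed_eq (pc g1) (continuous_const.mul (pc g2))) hu

theorem H1 (u : Lp ℂ ⊤ σ) (hu : u ∈ As) (hr : ∀ᵐ s ∂σ, (u s).im = 0) :
    ∃ c : ℂ, u =ᵐ[σ] fun _ => c := by
  obtain ⟨M, M0, hM⟩ := bdd u
  have im : ∀ g : S → ℂ, Continuous g → Integrable (fun s => u s * g s) σ := fun g hg =>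
    (cint hg).bdd_mul (Lp.aestronglyMeasurable u) hM
  have s1 : ∀ g ∈ A, ∫ s, u s * g s ∂σ = g o * ∫ s, u s ∂σ := by
    intro g hg
    have e1 : ∀ v : Lp ℂ ⊤ σ, ∀ k : C(S, ℂ), ∫ s, v s * ContinuousMap.toLp 1 σ ℂ k s ∂σ =
        ∫ s, v s * k s ∂σ := fun v k => integral_congr_ae (by
      filter_upwards [ContinuousMap.coeFn_toLp (p := 1) (𝕜 := ℂ) σ k] with s hs
      rw [hs])
    have := cl _ (ContinuousMap.toLp 1 σ ℂ g) (ContinuousMap.toLp 1 σ ℂ 1) (g o) (by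
      rintro v ⟨f, hf, hv⟩
      have e2 : ∀ k : C(S, ℂ), ∫ s, v s * k s ∂σ = ∫ s, (f * k) s ∂σ := fun k =>
        integral_congr_ae (by filter_upwards [hv] with s hs; rw [hs]; rfl)
      rw [e1, e1, e2, e2, int_A _ (A.mul_mem hf hg), int_A _ (A.mul_mem hf A.one_mem)]
      simp [mul_comm]) u hu
    rw [e1, e1] at this
    simpa using this
  obtain ⟨c, hc⟩ : ∃ c, c = ∫ s, u s ∂σ := ⟨_, rfl⟩
  have hr' : ∀ᵐ s ∂σ, (starRingEnd ℂ) (u s) = u s := hr.mono fun s => Complex.conj_eq_iff_im.2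
  have cc : (starRingEnd ℂ) c = c := by rw [hc, ← integral_conj]; exact integral_congr_ae hr'
  have s2 : ∀ g ∈ A, ∫ s, u s * star (g s) ∂σ = star (g o) * c := by
    intro g hg
    have := congrArg (starRingEnd ℂ) (s1 g hg)
    rw [← integral_conj, map_mul, ← hc, cc] at this
    refine Eq.trans (integral_congr_ae ?_) this
    filter_upwards [hr'] with s hs
    rw [map_mul, hs]; rfl
  have h1 : MemLp (fun s => u s - c) 1 σ :=
    ((Lp.memLp u).mono_exponent le_top).sub (memLp_const c)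
  have key := cl _ (h1.toLp _) (h1.toLp _) 0 (by
    rintro v ⟨f, hf, g, hg, hv⟩
    rw [zero_mul, integral_congr_ae (g := fun s => (u s * f s + u s * star (g s)) -
      (c * f s + c * (starRingEnd ℂ) (g s))) (by
        filter_upwards [hv, h1.coeFn_toLp] with s a1 a2
        rw [a1, a2, RCLike.star_def]; ring),
      integral_sub (by exact (im _ f.continuous).add (im _ g.continuous.star))
        (cint (by fun_prop)),
      integral_add (im _ f.continuous) (im _ g.continuous.star),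
      integral_add (cint (by fun_prop)) (cint (by fun_prop)), s1 f hf, s2 g hg,
      integral_const_mul, integral_const_mul, integral_conj, int_A f hf, int_A g hg, ← hc,
      RCLike.star_def]
    ring) (u - ContinuousMap.toLp ⊤ σ ℂ (ContinuousMap.const S c)) (H2 _)
  rw [zero_mul, integral_congr_ae (g := fun s => ((‖u s - c‖ ^ 2 : ℝ) : ℂ)) (by
    filter_upwards [Lp.coeFn_sub u (ContinuousMap.toLp ⊤ σ ℂ (ContinuousMap.const S c)),
      ContinuousMap.coeFn_toLp (p := ⊤) (𝕜 := ℂ) σ (ContinuousMap.const S c), h1.coeFn_toLp,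
      hr'] with s a1 a2 a3 a4
    rw [a1, Pi.sub_apply, a2, a3]
    push_cast
    rw [← Complex.mul_conj', map_sub, a4, cc]; rfl), integral_complex_ofReal,
    Complex.ofReal_eq_zero, integral_eq_zero_iff_of_nonneg (fun s => sq_nonneg _)] at key
  · refine ⟨c, key.mono fun s hs => ?_⟩
    simpa [sub_eq_zero] using hs
  · exact ((((Lp.memLp u).mono_exponent le_top).sub (memLp_const c) :
      MemLp (fun s => u s - c) 2 σ)).norm.integrable_sq

lemma ae_zero (k : C(S, ℂ)) (h : k =ᵐ[σ] 0) (p : T × T) : k (ι p) = 0 := by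
  have h1 : (fun p => k (ι p)) =ᵐ[μ.prod μ] fun _ => 0 :=
    ae_of_ae_map ι.continuous.measurable.aemeasurable h
  exact congrFun ((Continuous.ae_eq_iff_eq _ (by fun_prop) continuous_const).1 h1) p

lemma f0 : fourier 1 (0 : T) = 1 := by simp
lemma fh : fourier 1 ((1 / 2 : ℝ) : T) = -1 := by
  rw [fourier_coe_apply, ← Complex.exp_pi_mul_I]; congr 1; push_cast; ring

theorem supp : σ.support.Nontrivial := by
  have key : ∀ p, ι p ∈ σ.support := by
    intro p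
    rw [Measure.mem_support_iff_forall]
    intro U hU
    refine lt_of_lt_of_le ?_ (Measure.le_map_apply ι.continuous.measurable.aemeasurable U)
    exact Measure.measure_pos_of_mem_nhds _ (ι.continuous.continuousAt.preimage_mem_nhds hU)
  refine ⟨_, key (0, 0), _, key (0, ((1 / 2 : ℝ) : T)), fun h => ?_⟩
  have := congrArg (fun s : S => s.1.2) h
  simp only [ι, ContinuousMap.coe_mk, f0, fh] at this
  norm_num at this

lemma z_abs : ∃ g ∈ A, ∃ k ∈ A, (∀ s, g s = s.1.1 * (s.1.2.re : ℂ)) ∧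
    ∀ s, k s = s.1.1 * ((|s.1.2.re| : ℝ) : ℂ) := by
  let R : C(S, ℝ) → C(S, ℂ) := fun g => ⟨fun s => g s, by fun_prop⟩
  have Rc : Continuous R := ContinuousMap.continuous_postcomp ⟨_, Complex.continuous_ofReal⟩
  let B : Subalgebra ℝ C(S, ℝ) :=
    { carrier := {g | ∀ h : C(S, ℂ), (∀ k, h * star w ^ k ∈ A) → ∀ k, h * R g * star w ^ k ∈ A}
      mul_mem' := fun {a b} ha hb h hh k => by
        convert hb _ (ha h hh) k using 2
        ext s; simp [R, mul_assoc]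
      add_mem' := fun {a b} ha hb h hh k => by
        convert A.add_mem (ha h hh k) (hb h hh k) using 1
        ext s; simp [R]; ring
      algebraMap_mem' := fun r h hh k => by
        convert A.smul_mem (hh k) (r : ℂ) using 1
        ext s; simp [R]; ring }
  have Bc : IsClosed (B : Set C(S, ℝ)) := by
    have : (B : Set C(S, ℝ)) = ⋂ h : C(S, ℂ), ⋂ _ : (∀ k, h * star w ^ k ∈ A), ⋂ k : ℕ,
        (fun g => h * R g * star w ^ k) ⁻¹' A := by
      ext g; simp only [Set.mem_iInter]; rfl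
    rw [this]
    exact isClosed_iInter fun h => isClosed_iInter fun _ => isClosed_iInter fun k =>
      A_closed.preimage (by fun_prop)
  let x : C(S, ℝ) := ⟨fun s => s.1.2.re, by fun_prop⟩
  have hx : x ∈ B := fun h hh k => by
    convert A.smul_mem (A.add_mem (A.mul_mem w_mem (hh k)) (hh (k + 1))) (1 / 2 : ℂ) using 1
    ext s; simp [R, x, Complex.re_eq_add_conj]; ring
  have ha : |x| ∈ B := closure_minimal subset_rfl Bc
    (ContinuousMap.abs_mem_subalgebra_closure B ⟨x, hx⟩)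
  exact ⟨_, hx z y_mem 0, _, ha z y_mem 0, fun s => by simp [R, x], fun s => by simp [R, x]⟩

theorem zd : ∃ u ∈ As, ∃ v ∈ As, u ≠ 0 ∧ v ≠ 0 ∧ (0 : Lp ℂ ⊤ σ) ∈ As ∧
    (0 : Lp ℂ ⊤ σ) =ᵐ[σ] fun s => u s * v s := by
  obtain ⟨g, hg, k, hk, eg, ek⟩ := z_abs
  have mem : ∀ f ∈ A, ContinuousMap.toLp ⊤ σ ℂ f ∈ As := fun f hf =>
    @subset_closure _ τ _ _ ⟨f, hf, ContinuousMap.coeFn_toLp σ f⟩
  have nz : ∀ (f : C(S, ℂ)) p, f (ι p) ≠ 0 → ContinuousMap.toLp ⊤ σ ℂ f ≠ 0 := by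
    intro f p hp h
    refine hp (ae_zero f ?_ p)
    exact (ContinuousMap.coeFn_toLp (p := ⊤) (𝕜 := ℂ) σ f).symm.trans (h ▸ Lp.coeFn_zero _ _ _)
  refine ⟨_, mem _ (A.add_mem hk hg), _, mem _ (A.sub_mem hk hg), nz _ (0, 0) ?_,
    nz _ (0, ((1 / 2 : ℝ) : T)) ?_, by simpa using mem 0 A.zero_mem, ?_⟩
  · simp only [ContinuousMap.add_apply, eg, ek, ι, ContinuousMap.coe_mk, f0]; norm_num
  · simp only [ContinuousMap.sub_apply, eg, ek, ι, ContinuousMap.coe_mk, f0, fh]; norm_num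
  · filter_upwards [Lp.coeFn_zero ℂ ⊤ σ, ContinuousMap.coeFn_toLp (p := ⊤) (𝕜 := ℂ) σ (k + g),
      ContinuousMap.coeFn_toLp (p := ⊤) (𝕜 := ℂ) σ (k - g)] with s a1 a2 a3
    rw [a1, a2, a3, ContinuousMap.add_apply, ContinuousMap.sub_apply, eg, ek, Pi.zero_apply]
    have : ((|s.1.2.re| : ℝ) : ℂ) ^ 2 = (s.1.2.re : ℂ) ^ 2 := by exact_mod_cast sq_abs s.1.2.re
    linear_combination (-s.1.1 ^ 2) * this

end Pool.Agent.H.MP_ca8afd_an
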